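import Mathlib

set_option autoImplicit false

namespace Pool.Agent.H.MP_ec8146_lc

/-- First-order formulas over the edge relation and `c` unary predicates, with `n` free variables.
The quantifier binds variable `0`. -/
inductive Fml (c : ℕ) : ℕ → Type
  | adj {n : ℕ} : Fin n → Fin n → Fml c n
  | eq {n : ℕ} : Fin n → Fin n → Fml c n
  | col {n : ℕ} : Fin c → Fin n → Fml c n
  | neg {n : ℕ} : Fml c n → Fml c n
  | and {n : ℕ} : Fml c n → Fml c n → Fml c n
  | ex {n : ℕ} : Fml c (n + 1) → Fml c n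

/-- Satisfaction in the coloured graph `(G, C)` under an assignment. -/
def Fml.Sat {c : ℕ} {V : Type} (G : SimpleGraph V) (C : Fin c → Set V) :
    {n : ℕ} → Fml c n → (Fin n → V) → Prop
  | _, .adj i j, a => G.Adj (a i) (a j)
  | _, .eq i j, a => a i = a j
  | _, .col k i, a => a i ∈ C k
  | _, .neg φ, a => ¬ φ.Sat G C a
  | _, .and φ ψ, a => φ.Sat G C a ∧ ψ.Sat G C a
  | _, .ex φ, a => ∃ z : V, φ.Sat G C (Fin.cons z a)

/-- No walk of length at most `r` from `u` to `v` avoids `S`. -/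
def Far {V : Type} (G : SimpleGraph V) (S : Finset V) (r : ℕ) (u v : V) : Prop :=
  ¬ ∃ p : G.Walk u v, p.length ≤ r ∧ ∀ z ∈ p.support, z ∉ S

/-- `G` has a complete minor on `t` vertices. -/
def HasCliqueMinor {V : Type} (G : SimpleGraph V) (t : ℕ) : Prop :=
  ∃ B : Fin t → Set V, (∀ i, (G.induce (B i)).Connected) ∧
    (∀ i j, i ≠ j → Disjoint (B i) (B j)) ∧ (∀ i j, i ≠ j → ∃ x ∈ B i, ∃ y ∈ B j, G.Adj x y)

end Pool.Agent.H.MP_ec8146_lc
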