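import Pool.Agent.H.MP_ec8146_lc.Defs

set_option autoImplicit false

namespace Pool.Agent.H.MP_ec8146_lc
open SimpleGraph

namespace WcolAux

variable {V : Type} (G : SimpleGraph V)

/-- a walk of length at most `k` inside `S` -/
def W (S : Set V) (k : ℕ) (x y : V) : Prop := ∃ p : G.Walk x y, p.length ≤ k ∧ ∀ z ∈ p.support, z ∈ S

/-- connected inside `S` -/
def Cn (S : Set V) (x y : V) : Prop := ∃ k, W G S k x y

variable {G}

theorem W.symm {S : Set V} {k : ℕ} {x y : V} (h : W G S k x y) : W G S k y x := by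
  obtain ⟨p, a, b⟩ := h
  exact ⟨p.reverse, by simpa using a, fun z hz => b z (by simpa using hz)⟩

theorem W.trans {S : Set V} {k l : ℕ} {x y z : V} (h : W G S k x y) (h' : W G S l y z) :
    W G S (k + l) x z := by
  obtain ⟨p, a, b⟩ := h
  obtain ⟨q, c, d⟩ := h'
  refine ⟨p.append q, by rw [Walk.length_append]; omega, fun w hw => ?_⟩
  rcases (Walk.mem_support_append_iff _ _).1 hw with h | h
  · exact b w h
  · exact d w h

theorem W.mono {S T : Set V} {k : ℕ} {x y : V} (h : W G S k x y) (hs : S ⊆ T) : W G T k x y := by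
  obtain ⟨p, a, b⟩ := h
  exact ⟨p, a, fun z hz => hs (b z hz)⟩

theorem W.left {S : Set V} {k : ℕ} {x y : V} (h : W G S k x y) : x ∈ S := by
  obtain ⟨p, -, b⟩ := h
  exact b x p.start_mem_support

theorem W.refl {S : Set V} {x : V} (h : x ∈ S) : W G S 0 x x :=
  ⟨Walk.nil, le_rfl, fun z hz => by simp at hz; exact hz ▸ h⟩

theorem W.adj {S : Set V} {x y : V} (h : G.Adj x y) (hx : x ∈ S) (hy : y ∈ S) : W G S 1 x y :=
  ⟨Walk.cons h Walk.nil, le_rfl, fun z hz => by
    simp at hz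
    rcases hz with rfl | rfl <;> assumption⟩

theorem Cn.symm {S : Set V} {x y : V} (h : Cn G S x y) : Cn G S y x := h.imp fun _ h => h.symm
theorem Cn.trans {S : Set V} {x y z : V} (h : Cn G S x y) (h' : Cn G S y z) : Cn G S x z :=
  let ⟨_, a⟩ := h; let ⟨_, b⟩ := h'; ⟨_, a.trans b⟩
theorem Cn.mono {S T : Set V} {x y : V} (h : Cn G S x y) (hs : S ⊆ T) : Cn G T x y :=
  h.imp fun _ h => h.mono hs
theorem Cn.left {S : Set V} {x y : V} (h : Cn G S x y) : x ∈ S := let ⟨_, a⟩ := h; a.left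

theorem split {S : Set V} {x y : V} (p : G.Walk x y) (hp : ∀ z ∈ p.support, z ∈ S) (j : ℕ) :
    W G S j x (p.getVert j) ∧ W G S (p.length - j) (p.getVert j) y := by
  induction p generalizing j with
  | nil => simpa using ⟨⟨Walk.nil, by simp, hp⟩, Walk.nil, by simp, hp⟩
  | cons h q ih =>
    cases j with
    | zero => exact ⟨W.refl (hp _ (by simp)), _, le_rfl, hp⟩
    | succ j =>
      obtain ⟨a, b⟩ := ih (fun z hz => hp z (by simp [hz])) j
      rw [Walk.getVert_cons_succ]
      refine ⟨?_, by simpa using b⟩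
      rw [add_comm]
      exact (W.adj h (hp _ (by simp)) (hp _ (by simp))).trans a

theorem shortest {S : Set V} {x y : V} (h : Cn G S x y) : ∃ p : G.Walk x y,
    (∀ z ∈ p.support, z ∈ S) ∧ ∀ k, W G S k x y → p.length ≤ k := by
  classical
  obtain ⟨p, a, b⟩ := Nat.find_spec h
  exact ⟨p, b, fun k hk => a.trans (Nat.find_min' h hk)⟩

theorem ball {S : Set V} {x y : V} (p : G.Walk x y) (hp : ∀ z ∈ p.support, z ∈ S)
    (hm : ∀ k, W G S k x y → p.length ≤ k) (r : ℕ) (c : V) :
    {z | z ∈ p.support ∧ W G S r c z}.ncard ≤ 2 * r + 1 := by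
  classical
  by_cases h : ∃ j, W G S r c (p.getVert j)
  · have sub : {z | z ∈ p.support ∧ W G S r c z} ⊆
        p.getVert '' (Finset.Icc (Nat.find h) (Nat.find h + 2 * r) : Finset ℕ) := by
      rintro z ⟨h1, h2⟩
      obtain ⟨j, rfl, hj⟩ := Walk.mem_support_iff_exists_getVert.1 h1
      refine ⟨j, ?_, rfl⟩
      have a := Nat.find_min' h h2
      have b := hm _ ((((split p hp (Nat.find h)).1.trans (Nat.find_spec h).symm).trans h2).trans
        (split p hp j).2)
      simp only [Finset.coe_Icc, Set.mem_Icc]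
      omega
    refine (Set.ncard_le_ncard sub (Set.toFinite _)).trans ((Set.ncard_image_le (Set.toFinite _)).trans ?_)
    rw [Set.ncard_coe_finset, Nat.card_Icc]
    omega
  · have : {z | z ∈ p.support ∧ W G S r c z} = ∅ := by
      ext z
      simp only [Set.mem_setOf_eq, Set.mem_empty_iff_false, iff_false, not_and]
      intro h1 h2
      obtain ⟨j, rfl, -⟩ := Walk.mem_support_iff_exists_getVert.1 h1
      exact h ⟨j, h2⟩
    simp [this]

theorem connected {S : Set V} (hn : S.Nonempty) (h : ∀ x ∈ S, ∀ y ∈ S, Cn G S x y) :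
    (G.induce S).Connected := by
  have key : ∀ {x y : V} (p : G.Walk x y), (∀ z ∈ p.support, z ∈ S) → ∀ (hx : x ∈ S) (hy : y ∈ S),
      (G.induce S).Reachable ⟨x, hx⟩ ⟨y, hy⟩ := by
    intro x y p
    induction p with
    | nil => intro _ _ _; rfl
    | cons a q ih =>
      intro hp hx hy
      exact (Adj.reachable (G := G.induce S) (u := ⟨_, hx⟩) (v := ⟨_, hp _ (by simp)⟩) a).trans
        (ih (fun z hz => hp z (by simp [hz])) _ hy)
  haveI := hn.to_subtype
  refine ⟨fun x y => ?_⟩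
  obtain ⟨_, p, -, b⟩ := h x x.2 y y.2
  exact key p b x.2 y.2

variable (G)

/-- levels below `b` adjacent to the component of `x` among the levels at least `b` -/
def N (lam : V → ℕ) (b : ℕ) (x : V) : Set ℕ :=
  {a | a < b ∧ ∃ z w, Cn G {v | b ≤ lam v} x z ∧ G.Adj z w ∧ lam w = a}

/-- the two recorded properties of a level -/
def Good (t r : ℕ) (lam : V → ℕ) (b : ℕ) : Prop :=
  (∀ x, {y | lam y = b ∧ W G {v | b ≤ lam v} r x y}.ncard ≤ t * (2 * r + 1) + 1) ∧
    ∀ x, (N G lam b x).ncard ≤ t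

/-- invariant of the construction -/
structure Inv (t r : ℕ) (lam : V → ℕ) (i : ℕ) : Prop where
  le : ∀ v, lam v ≤ i
  con : ∀ b < i, ∀ x y, lam x = b → lam y = b → Cn G {v | lam v = b} x y
  adj : ∀ x, ∀ a ∈ N G lam i x, ∀ b ∈ N G lam i x, a ≠ b → ∃ u v, lam u = a ∧ lam v = b ∧ G.Adj u v
  good : ∀ b < i, Good G t r lam b

variable {G}

theorem N_fin (lam : V → ℕ) (b : ℕ) (x : V) : (N G lam b x).Finite :=
  (Set.finite_Iio b).subset fun _ h => h.1

theorem Inv.card {t r : ℕ} {lam : V → ℕ} {i : ℕ} (h : Inv G t r lam i) (hG : ¬ HasCliqueMinor G t)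
    (x : V) : (N G lam i x).ncard ≤ t := by
  by_contra c
  have hf := N_fin (G := G) lam i x
  have : Fintype.card (Fin t) ≤ hf.toFinset.card := by
    rw [← Set.ncard_eq_toFinset_card _ hf, Fintype.card_fin]; omega
  obtain ⟨f, hf'⟩ := Function.Embedding.exists_of_card_le_finset this
  have m : ∀ j, f j ∈ N G lam i x := fun j => by simpa using hf' ⟨j, rfl⟩
  refine hG ⟨fun j => {v | lam v = f j}, fun j => ?_, fun j k hjk => ?_, fun j k hjk => ?_⟩
  · obtain ⟨a, _, w, -, -, e⟩ := m j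
    exact connected ⟨w, e⟩ fun x hx y hy => h.con _ a x y hx hy
  · exact Set.disjoint_left.2 fun v a b => hjk (f.injective (a.symm.trans b))
  · obtain ⟨u, v, a, b, c⟩ := h.adj x _ (m j) _ (m k) (f.injective.ne hjk)
    exact ⟨u, a, v, b, c⟩

theorem Inv.step [Finite V] {t r : ℕ} {lam : V → ℕ} {i : ℕ} (h : Inv G t r lam i)
    (hG : ¬ HasCliqueMinor G t) {x₀ : V} (hx : i ≤ lam x₀) :
    ∃ lam' : V → ℕ, Inv G t r lam' (i + 1) ∧ {v | i + 1 ≤ lam' v} ⊂ {v | i ≤ lam v} := by
  classical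
  set R : Set V := {v | i ≤ lam v} with hR
  have ch : ∀ a : N G lam i x₀, ∃ z w, G.Adj z w ∧ lam w = a ∧ ∃ p : G.Walk x₀ z,
      (∀ y ∈ p.support, y ∈ R) ∧ ∀ k, W G R k x₀ z → p.length ≤ k := fun a => by
    obtain ⟨-, z, w, c, d, e⟩ := a.2
    exact ⟨z, w, d, e, shortest c⟩
  choose z w hzw hw p hp hm using ch
  set Q : Set V := insert x₀ (⋃ a, {y | y ∈ (p a).support}) with hQ
  have QR : Q ⊆ R := by
    rintro y (rfl | hy)
    · exact hx
    · obtain ⟨a, ha⟩ := Set.mem_iUnion.1 hy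
      exact hp a y ha
  have Qc : ∀ y ∈ Q, Cn G Q x₀ y := by
    rintro y (rfl | hy)
    · exact ⟨0, W.refl (Or.inl rfl)⟩
    · obtain ⟨a, ha⟩ := Set.mem_iUnion.1 hy
      obtain ⟨j, rfl, -⟩ := Walk.mem_support_iff_exists_getVert.1 ha
      exact ⟨j, (split (p a) (fun y hy => Or.inr (Set.mem_iUnion.2 ⟨a, hy⟩)) j).1⟩
  set lam' : V → ℕ := fun v => if v ∈ R ∧ v ∉ Q then i + 1 else lam v with hl
  have e1 : ∀ a < i, ∀ v, lam' v = a ↔ lam v = a := fun a ha v => by
    simp only [hl, hR, Set.mem_setOf_eq]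
    split_ifs with c
    · omega
    · rfl
  have e2 : ∀ v, lam' v = i ↔ v ∈ Q := fun v => by
    have := h.le v
    have := @QR v
    simp only [hl, hR, Set.mem_setOf_eq] at this ⊢
    split_ifs with c
    · simp [c.2]
    · constructor
      · intro e; by_contra d; exact c ⟨e.ge, d⟩
      · intro d; have := this d; omega
  have e3 : ∀ b ≤ i, {v | b ≤ lam' v} = {v | b ≤ lam v} := fun b hb => by
    ext v
    simp only [hl, hR, Set.mem_setOf_eq]
    split_ifs with c
    · omega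
    · rfl
  have e4 : {v | i + 1 ≤ lam' v} = R \ Q := by
    ext v
    have := h.le v
    simp only [hl, Set.mem_setOf_eq, Set.mem_diff]
    split_ifs with c
    · simp [c]
    · simp only [c, iff_false]; omega
  have e5 : ∀ b ≤ i, ∀ x, N G lam' b x = N G lam b x := fun b hb x => by
    ext a
    simp only [N, Set.mem_setOf_eq, e3 b hb]
    refine and_congr_right fun ha => ?_
    simp only [e1 a (by omega)]
  have old : ∀ x, ∀ a ∈ N G lam' (i + 1) x, a ≠ i → a ∈ N G lam i x := by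
    rintro x a ⟨h1, y, v, c, d, e⟩ hne
    have ha : a < i := by omega
    rw [e4] at c
    exact ⟨ha, y, v, c.mono Set.diff_subset, d, (e1 a ha v).1 e⟩
  have new : ∀ x, i ∈ N G lam' (i + 1) x → ∀ a ∈ N G lam i x,
      ∃ u v, lam' u = i ∧ lam' v = a ∧ G.Adj u v := by
    rintro x ⟨-, y, v, c, d, e⟩ a ⟨h1, y', v', c', d', e'⟩
    rw [e4] at c
    have vQ := (e2 v).1 e
    have c1 : Cn G R x₀ y' := ((((Qc v vQ).mono QR).trans
      ⟨1, W.adj d.symm (QR vQ) c.symm.left.1⟩).trans (c.mono Set.diff_subset).symm).trans c'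
    set a' : N G lam i x₀ := ⟨a, h1, y', v', c1, d', e'⟩
    exact ⟨z a', w a', (e2 _).2 (Or.inr (Set.mem_iUnion.2 ⟨a', (p a').end_mem_support⟩)),
      (e1 a h1 _).2 (hw a'), hzw a'⟩
  refine ⟨lam', ⟨fun v => ?_, fun b hb x y hx hy => ?_, fun x a ha b hb hab => ?_, fun b hb => ?_⟩, ?_⟩
  · have := h.le v
    simp only [hl]
    split_ifs <;> omega
  · rcases (Nat.lt_succ_iff.1 hb).eq_or_lt with rfl | hb
    · have : {v | lam' v = b} = Q := Set.ext e2
      rw [this]
      exact (Qc x ((e2 x).1 hx)).symm.trans (Qc y ((e2 y).1 hy))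
    · simp only [e1 b hb] at hx hy ⊢
      exact h.con b hb x y hx hy
  · by_cases c : a = i
    · subst c
      exact new x ha b (old x b hb hab.symm)
    by_cases d : b = i
    · subst d
      obtain ⟨u, v, f1, f2, f3⟩ := new x hb a (old x a ha c)
      exact ⟨v, u, f2, f1, f3.symm⟩
    have a1 := old x a ha c
    have b1 := old x b hb d
    obtain ⟨u, v, f1, f2, f3⟩ := h.adj x a a1 b b1 hab
    exact ⟨u, v, (e1 a a1.1 u).2 f1, (e1 b b1.1 v).2 f2, f3⟩
  · rcases (Nat.lt_succ_iff.1 hb).eq_or_lt with rfl | hb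
    · refine ⟨fun x => ?_, fun x => by rw [e5 b le_rfl]; exact h.card hG x⟩
      rw [e3 b le_rfl]
      haveI := (N_fin (G := G) lam b x₀).fintype
      have sub : {y | lam' y = b ∧ W G {v | b ≤ lam v} r x y} ⊆
          insert x₀ (⋃ a, {y | y ∈ (p a).support ∧ W G R r x y}) := by
        rintro y ⟨h1, h2⟩
        rcases (e2 y).1 h1 with rfl | hy
        · exact Or.inl rfl
        · obtain ⟨a, ha⟩ := Set.mem_iUnion.1 hy
          exact Or.inr (Set.mem_iUnion.2 ⟨a, ha, h2⟩)
      refine (Set.ncard_le_ncard sub (Set.toFinite _)).trans ((Set.ncard_insert_le _ _).trans ?_)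
      refine Nat.succ_le_succ ((Set.ncard_iUnion_le_of_fintype _).trans ?_)
      refine (Finset.sum_le_card_nsmul _ _ (2 * r + 1) fun a _ => ball _ (hp a) (hm a) r x).trans ?_
      rw [smul_eq_mul, Finset.card_univ, ← Nat.card_eq_fintype_card, Nat.card_coe_set_eq]
      exact Nat.mul_le_mul_right _ (h.card hG x₀)
    · obtain ⟨g1, g2⟩ := h.good b hb
      refine ⟨fun x => ?_, fun x => by rw [e5 b hb.le]; exact g2 x⟩
      simp only [e1 b hb, e3 b hb.le]
      exact g1 x
  · rw [e4]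
    exact ⟨Set.diff_subset, fun c => (c hx).2 (Or.inl rfl)⟩

theorem Inv.final [Finite V] {t r : ℕ} (hG : ¬ HasCliqueMinor G t) : ∀ (n : ℕ) (lam : V → ℕ) (i : ℕ),
    Inv G t r lam i → {v | i ≤ lam v}.ncard = n → ∃ lam : V → ℕ, ∀ b, Good G t r lam b := by
  intro n
  induction n using Nat.strong_induction_on with
  | _ n ih =>
    intro lam i h hn
    by_cases c : ∃ x, i ≤ lam x
    · obtain ⟨x, hx⟩ := c
      obtain ⟨lam', a, b⟩ := h.step hG hx
      exact ih _ (hn ▸ Set.ncard_lt_ncard b) lam' _ a rfl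
    · refine ⟨lam, fun b => ?_⟩
      by_cases hb : b < i
      · exact h.good b hb
      have no : ∀ x, ¬ b ≤ lam x := fun x hx => c ⟨x, by omega⟩
      refine ⟨fun x => ?_, fun x => ?_⟩
      · have : {y | lam y = b ∧ W G {v | b ≤ lam v} r x y} = ∅ :=
          Set.eq_empty_of_forall_notMem fun y hy => no y hy.1.ge
        simp [this]
      · have : N G lam b x = ∅ :=
          Set.eq_empty_of_forall_notMem fun _ ⟨_, _, _, d, _⟩ => no x d.left
        simp [this]

/-- minima of short walks ending at `u` -/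
def L (G : SimpleGraph V) (lam : V → ℕ) (u : V) (k : ℕ) : Set ℕ :=
  {m | ∃ z, ∃ p : G.Walk z u, p.length ≤ k ∧ (∀ w ∈ p.support, m ≤ lam w) ∧ ∃ w ∈ p.support, lam w = m}

theorem L_card {t : ℕ} {lam : V → ℕ} (h : ∀ b x, (N G lam b x).ncard ≤ t) (u : V) (k : ℕ) :
    (L G lam u k).Finite ∧ (L G lam u k).ncard ≤ (t + 1) ^ k := by
  induction k with
  | zero =>
    have : L G lam u 0 ⊆ {lam u} := by
      rintro m ⟨z, p, a, -, w, c, d⟩
      cases p with
      | nil => simp at c; simp [← d, c]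
      | cons _ _ => simp at a
    exact ⟨(Set.finite_singleton _).subset this,
      (Set.ncard_le_ncard this (Set.finite_singleton _)).trans (by simp)⟩
  | succ k ih =>
    obtain ⟨f, c⟩ := ih
    haveI := f.fintype
    have sub : L G lam u (k + 1) ⊆ ⋃ m : L G lam u k, insert m.1 (N G lam m u) := by
      rintro m ⟨z, p, a, b, w, hw, d⟩
      cases p with
      | nil => exact Set.mem_iUnion.2 ⟨⟨m, _, Walk.nil, by simp, b, w, hw, d⟩, Or.inl rfl⟩
      | cons e q =>
        obtain ⟨v, v1, v2⟩ := Set.exists_min_image {y | y ∈ q.support} lam (List.finite_toSet _)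
          ⟨_, q.start_mem_support⟩
        have ql : q.length ≤ k := by simpa using a
        refine Set.mem_iUnion.2 ⟨⟨lam v, _, q, ql, v2, v, v1, rfl⟩, ?_⟩
        have le := b v (by simp [show v ∈ q.support from v1])
        rcases le.eq_or_lt with g | g
        · exact Or.inl g
        · refine Or.inr ⟨g, _, z, ⟨k, W.symm ⟨q, ql, v2⟩⟩, e.symm, ?_⟩
          simp only [Walk.support_cons, List.mem_cons] at hw
          rcases hw with rfl | hw
          · exact d
          · have := v2 w hw; omega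
    have fin : (⋃ m : L G lam u k, insert m.1 (N G lam m u)).Finite :=
      Set.finite_iUnion fun m => (N_fin _ _ _).insert _
    refine ⟨fin.subset sub, (Set.ncard_le_ncard sub fin).trans
      ((Set.ncard_iUnion_le_of_fintype _).trans ?_)⟩
    refine (Finset.sum_le_card_nsmul _ _ (t + 1) fun m _ =>
      (Set.ncard_insert_le _ _).trans (Nat.succ_le_succ (h _ _))).trans ?_
    rw [smul_eq_mul, Finset.card_univ, ← Nat.card_eq_fintype_card, Nat.card_coe_set_eq, pow_succ]
    exact Nat.mul_le_mul_right _ c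

end WcolAux

open WcolAux in
theorem wcol (t r : ℕ) : ∃ c : ℕ, ∀ (V : Type) [Fintype V] (G : SimpleGraph V),
    ¬ HasCliqueMinor G t → ∃ lam : V → ℕ, ∀ u : V,
      {y | ∃ p : G.Walk u y, p.length ≤ r ∧ ∀ z ∈ p.support, lam y ≤ lam z}.ncard ≤ c := by
  refine ⟨(t + 1) ^ r * (t * (2 * r + 1) + 1), fun V _ G hG => ?_⟩
  obtain ⟨lam, h⟩ := Inv.final (r := r) hG _ (fun _ => 0) 0
    ⟨fun _ => le_rfl, fun b hb => absurd hb (Nat.not_lt_zero b),
      fun _ a ha => absurd ha.1 (Nat.not_lt_zero a), fun b hb => absurd hb (Nat.not_lt_zero b)⟩ rfl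
  refine ⟨lam, fun u => ?_⟩
  obtain ⟨f, c⟩ := L_card (fun b => (h b).2) u r
  haveI := f.fintype
  have sub : {y | ∃ p : G.Walk u y, p.length ≤ r ∧ ∀ z ∈ p.support, lam y ≤ lam z} ⊆
      ⋃ m : L G lam u r, {y | lam y = m ∧ W G {v | m.1 ≤ lam v} r u y} := by
    rintro y ⟨p, a, b⟩
    exact Set.mem_iUnion.2 ⟨⟨lam y, y, p.reverse, by simpa using a, fun w hw => b w (by simpa using hw),
      y, p.reverse.start_mem_support, rfl⟩, rfl, p, a, b⟩
  refine (Set.ncard_le_ncard sub (Set.toFinite _)).trans ((Set.ncard_iUnion_le_of_fintype _).trans ?_)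
  refine (Finset.sum_le_card_nsmul _ _ (t * (2 * r + 1) + 1) fun m _ => (h m.1).1 u).trans ?_
  rw [smul_eq_mul, Finset.card_univ, ← Nat.card_eq_fintype_card, Nat.card_coe_set_eq]
  exact Nat.mul_le_mul_right _ c

end Pool.Agent.H.MP_ec8146_lc
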