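import Pool.Agent.H.MP_963612_co.Topo
import Pool.Agent.H.MP_ec8146_lc.Wcol

set_option autoImplicit false

namespace Pool.Agent.H.MP_ec8146_lc

open Pool.Agent.H.MP_963612_co Set

lemma planar_induce {V : Type} {G : SimpleGraph V} (h : Planar G) (U : Set V) :
    Planar (G.induce U) := by
  obtain ⟨p, hp, γ, h1, h2, h3⟩ := h
  refine ⟨fun v => p v, fun u v e => Subtype.ext (hp e), fun u v => γ u v, fun u v ha => h1 _ _ ha,
    fun u v w t ha => h2 _ _ _ _ ha, fun u v u' v' s t ha ha' s0 s1 t0 t1 e => ?_⟩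
  have := h3 _ _ _ _ _ _ ha ha' s0 s1 t0 t1 e
  rw [Sym2.eq_iff] at this ⊢
  simp only [Subtype.ext_iff]
  exact this

theorem planar_noK6 {V : Type} [Finite V] {G : SimpleGraph V} (h : Planar G) :
    ¬ HasCliqueMinor G 6 := by
  rintro ⟨B, hc, hd, ha⟩
  obtain ⟨TT, bp, a1, a2, -, a4⟩ := planar_rep h
  have wk : ∀ (S : Set V) (i : Fin 6), B i ⊆ S → ∀ x y : B i, Jd (TT S) (bp x) (bp y) := by
    intro S i hS x y
    obtain ⟨w⟩ := (hc i).preconnected x y
    induction w with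
    | nil => exact Jd.refl (a1 _ _ (hS (Subtype.prop _)))
    | cons h w ih => exact (a2 _ _ _ (hS (Subtype.prop _)) (hS (Subtype.prop _)) h).trans ih
  have c : ∀ i, B i := fun i => (hc i).nonempty.some
  have J : ∀ i j, i ≠ j → Jd (TT (B i ∪ B j)) (bp (c i)) (bp (c j)) := by
    intro i j hij
    obtain ⟨x, hx, y, hy, h⟩ := ha i j hij
    exact ((wk _ i subset_union_left _ ⟨x, hx⟩).trans (a2 _ _ _ (Or.inl hx) (Or.inr hy) h)).trans
      (wk _ j subset_union_right ⟨y, hy⟩ _)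
  have D : ∀ i j k l, i ≠ k → i ≠ l → j ≠ k → j ≠ l →
      Disjoint (TT (B i ∪ B j)) (TT (B k ∪ B l)) := fun i j k l h1 h2 h3 h4 => a4 _ _ (by
    simp only [disjoint_union_left, disjoint_union_right]
    exact ⟨⟨hd _ _ h1, hd _ _ h3⟩, hd _ _ h2, hd _ _ h4⟩)
  obtain ⟨c1, j1⟩ := J 4 1 (by decide)
  obtain ⟨c2, j2⟩ := J 1 5 (by decide)
  obtain ⟨c3, j3⟩ := J 5 2 (by decide)
  obtain ⟨c4, j4⟩ := J 2 4 (by decide)
  have jg := (((j1.mono (S' := TT (B 4 ∪ B 1) ∪ TT (B 1 ∪ B 5) ∪ TT (B 5 ∪ B 2) ∪ TT (B 2 ∪ B 4))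
    fun _ h => Or.inl (Or.inl (Or.inl h))).trans (j2.mono fun _ h => Or.inl (Or.inl (Or.inr h)))).trans
    (j3.mono fun _ h => Or.inl (Or.inr h))).trans (j4.mono fun _ h => Or.inr h)
  refine lemX j1 j2 j3 j4 (J 0 4 (by decide)) (J 0 5 (by decide)) (J 1 3 (by decide))
    (J 2 3 (by decide)) ?_ ?_ ?_ ?_ ?_ ?_ ?_ ?_ ?_ ?_ ?_ ?_ ?_ ?_
    (W_eq (Sys.cyc_of_joins jg) jg.sub ?_ (J 0 3 (by decide)))
  iterate 14 exact D _ _ _ _ (by decide) (by decide) (by decide) (by decide)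
  simp only [disjoint_union_right]
  refine ⟨⟨⟨?_, ?_⟩, ?_⟩, ?_⟩ <;> exact D _ _ _ _ (by decide) (by decide) (by decide) (by decide)

lemma setpair {α V : Type} [Finite α] [Finite V] (X : α → Set V) (a m b : ℕ) :
    ∀ (E : Set α) (Y : α → Set V), (∀ e ∈ E, (X e).ncard ≤ a) → (∀ e ∈ E, (Y e).ncard ≤ b) →
      (∀ e ∈ E, Disjoint (X e) (Y e)) → (∀ e ∈ E, {e' ∈ E | Disjoint (X e) (Y e')}.ncard ≤ m) →
      E.ncard ≤ m * (a + 1) ^ b := by
  induction b with
  | zero =>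
    intro E Y _ hY _ hm
    rcases E.eq_empty_or_nonempty with rfl | ⟨e, he⟩
    · simp
    · refine le_trans (ncard_le_ncard fun e' he' => ?_) ((hm e he).trans (by simp))
      refine ⟨he', ?_⟩
      rw [(ncard_eq_zero).1 (Nat.le_zero.1 (hY e' he'))]; simp
  | succ b ih =>
    intro E Y hX hY hD hm
    rcases E.eq_empty_or_nonempty with rfl | ⟨e, he⟩
    · simp
    have hsub : E ⊆ {e' ∈ E | Disjoint (X e) (Y e')} ∪ ⋃ x ∈ X e, {e' ∈ E | x ∈ Y e'} := by
      intro e' he'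
      by_cases h : Disjoint (X e) (Y e')
      · exact Or.inl ⟨he', h⟩
      · obtain ⟨x, h1, h2⟩ := not_disjoint_iff.1 h
        exact Or.inr (mem_biUnion h1 ⟨he', h2⟩)
    have h1 := ncard_biUnion_le (X e) (toFinite _) (fun x => {e' ∈ E | x ∈ Y e'}) a
      (m * (a + 1) ^ b) (hX e he) fun x _ => by
        refine ih _ (fun e => Y e \ {x}) (fun e he => hX e he.1) (fun e he => ?_)
          (fun e he => (hD e he.1).mono_right diff_subset) fun e he => ?_
        · have := hY e he.1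
          rw [ncard_diff_singleton_of_mem he.2]; omega
        · refine le_trans (ncard_le_ncard fun e' he' => ?_) (hm e he.1)
          refine ⟨he'.1.1, Set.disjoint_left.2 fun y hy hy' => ?_⟩
          by_cases c : y = x
          · exact Set.disjoint_left.1 (hD e he.1) hy (c ▸ he.2)
          · exact Set.disjoint_left.1 he'.2 hy ⟨hy', c⟩
    have h2 := (ncard_le_ncard hsub).trans (ncard_union_le _ _)
    have h3 := hm e he
    have h4 : m ≤ m * (a + 1) ^ b := Nat.le_mul_of_pos_right _ (by positivity)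
    rw [pow_succ]; nlinarith

def WR {V : Type} (G : SimpleGraph V) (lam : V → ℕ) (r : ℕ) (u : V) : Set V :=
  {y | ∃ p : G.Walk u y, p.length ≤ r ∧ ∀ z ∈ p.support, lam y ≤ lam z}

lemma WR_mono {V : Type} {G : SimpleGraph V} {lam : V → ℕ} {r r' : ℕ} (h : r ≤ r') (u : V) :
    WR G lam r u ⊆ WR G lam r' u := fun _ ⟨p, h1, h2⟩ => ⟨p, h1.trans h, h2⟩

lemma far_of_WR {V : Type} {G : SimpleGraph V} {lam : V → ℕ} {r : ℕ} {S : Finset V} {x y : V}
    (h : WR G lam r x ∩ WR G lam r y ⊆ S) : Far G S r x y := by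
  classical
  rintro ⟨p, h1, h2⟩
  obtain ⟨z, hz, hm⟩ := p.support.toFinset.exists_min_image lam ⟨x, by simp⟩
  simp only [List.mem_toFinset] at hz hm
  refine h2 z hz (h ⟨⟨p.takeUntil z hz, (p.length_takeUntil_le_length hz).trans h1, fun w hw =>
    hm w (p.support_takeUntil_subset_support hz hw)⟩, ⟨(p.dropUntil z hz).reverse, ?_, fun w hw => ?_⟩⟩)
  · rw [SimpleGraph.Walk.length_reverse]; exact (p.length_dropUntil_le_length hz).trans h1
  · rw [SimpleGraph.Walk.support_reverse, List.mem_reverse] at hw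
    exact hm w (p.support_dropUntil_subset_support hz hw)

lemma WR_two {V : Type} {G : SimpleGraph V} {lam : V → ℕ} {r : ℕ} {x s y : V}
    (hs : s ∈ WR G lam r x) (hy : y ∈ WR G lam r x) (h : lam y ≤ lam s) :
    y ∈ WR G lam (2 * r) s := by
  obtain ⟨p, p1, p2⟩ := hs
  obtain ⟨q, q1, q2⟩ := hy
  refine ⟨p.reverse.append q, by simp; omega, fun z hz => ?_⟩
  rcases (SimpleGraph.Walk.mem_support_append_iff _ _).1 hz with hz | hz
  · rw [SimpleGraph.Walk.support_reverse, List.mem_reverse] at hz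
    exact h.trans (p2 z hz)
  · exact q2 z hz

theorem noTrans (r : ℕ) (N : ℕ → ℕ) : ∃ P : Prm, 2 ∣ P.R ∧ ∀ (V : Type) [Fintype V]
    (G : SimpleGraph V), Planar G → ∀ (ψ : V → V → Prop),
    (∀ s (S : Finset V), S.card ≤ s → ∃ tp : V → Fin (N s), ∀ u v u1 v1 : V, Far G S r u v →
      Far G S r u1 v1 → tp u = tp u1 → tp v = tp v1 → (ψ u v ↔ ψ u1 v1)) →
    ∀ f : P.V3 → V, Function.Injective f →
      (∀ u v, P.H3.Adj u v ↔ u ≠ v ∧ (ψ (f u) (f v) ∨ ψ (f v) (f u))) → False := by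
  classical
  obtain ⟨c, hc⟩ := wcol 6 (2 * r)
  obtain ⟨M, hM⟩ : ∃ M, M = 2 * (N c * (N c * (12 * (c + 1) ^ c))) := ⟨_, rfl⟩
  obtain ⟨P, h2, hP⟩ := noModel (M + (1 + 3 * (r + 1)) * (1 + c * (2 ^ c * M)))
  refine ⟨P, h2, fun V _ G hG ψ hloc f hf hadj => ?_⟩
  obtain ⟨lam, hlam⟩ := hc V G (planar_noK6 hG)
  have w2 : ∀ u, (WR G lam (2 * r) u).ncard ≤ c := hlam
  have w1 : ∀ u, (WR G lam r u).ncard ≤ c := fun u =>
    (ncard_le_ncard (WR_mono (by omega) u)).trans (w2 u)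
  have hdeg := P.deg_H3 h2
  set SS : P.V3 → P.V3 → Set V := fun u v => WR G lam r (f u) ∩ WR G lam r (f v) with hSS
  have SSc : ∀ u v, SS u v = SS v u := fun u v => inter_comm _ _
  have cnt1 : ∀ S : Set V, {e : P.V3 × P.V3 | P.H3.Adj e.1 e.2 ∧ ψ (f e.1) (f e.2) ∧
      SS e.1 e.2 = S}.ncard ≤ N c * (N c * (12 * (c + 1) ^ c)) := by
    intro S
    rcases Set.eq_empty_or_nonempty {e : P.V3 × P.V3 | P.H3.Adj e.1 e.2 ∧ ψ (f e.1) (f e.2) ∧
      SS e.1 e.2 = S} with h | ⟨e0, he0⟩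
    · rw [h]; simp
    have hSc : (toFinite S).toFinset.card ≤ c := by
      rw [← ncard_eq_toFinset_card, ← he0.2.2]
      exact (ncard_le_ncard inter_subset_left).trans (w1 _)
    obtain ⟨tp, htp⟩ := hloc c _ hSc
    have hsub : {e : P.V3 × P.V3 | P.H3.Adj e.1 e.2 ∧ ψ (f e.1) (f e.2) ∧ SS e.1 e.2 = S} ⊆
        ⋃ τ ∈ (univ : Set (Fin (N c))), ⋃ τ' ∈ (univ : Set (Fin (N c))),
          {e : P.V3 × P.V3 | (P.H3.Adj e.1 e.2 ∧ ψ (f e.1) (f e.2) ∧ SS e.1 e.2 = S) ∧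
            tp (f e.1) = τ ∧ tp (f e.2) = τ'} := fun e he =>
      mem_biUnion (mem_univ _) (mem_biUnion (mem_univ _) ⟨he, rfl, rfl⟩)
    refine (ncard_le_ncard hsub).trans (ncard_biUnion_le _ (toFinite _) _ _ _ (by simp) fun τ _ =>
      ncard_biUnion_le _ (toFinite _) _ _ _ (by simp) fun τ' _ => ?_)
    refine setpair (fun e => WR G lam r (f e.1) \ S) c 12 c _ (fun e => WR G lam r (f e.2) \ S)
      (fun e _ => (ncard_le_ncard diff_subset).trans (w1 _))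
      (fun e _ => (ncard_le_ncard diff_subset).trans (w1 _)) (fun e he => ?_) fun e he => ?_
    · exact Set.disjoint_left.2 fun y h1 h2 => h1.2 (he.1.2.2 ▸ ⟨h1.1, h2.1⟩)
    · have hsub : {e' ∈ {e : P.V3 × P.V3 | (P.H3.Adj e.1 e.2 ∧ ψ (f e.1) (f e.2) ∧ SS e.1 e.2 = S) ∧
            tp (f e.1) = τ ∧ tp (f e.2) = τ'} |
          Disjoint (WR G lam r (f e.1) \ S) (WR G lam r (f e'.2) \ S)} ⊆
          ⋃ v ∈ insert e.1 (P.H3.neighborSet e.1), (fun u => (u, v)) '' P.H3.neighborSet v := by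
        rintro e' ⟨he', hd⟩
        have f1 : Far G (toFinite S).toFinset r (f e.1) (f e.2) :=
          far_of_WR (lam := lam) (by rw [Finite.coe_toFinset, ← he.1.2.2])
        have f2 : Far G (toFinite S).toFinset r (f e.1) (f e'.2) := far_of_WR (lam := lam) (by
          rw [Finite.coe_toFinset]
          intro y hy
          by_contra hn
          exact Set.disjoint_left.1 hd ⟨hy.1, hn⟩ ⟨hy.2, hn⟩)
        have := (htp _ _ _ _ f1 f2 rfl (he.2.2.trans he'.2.2.symm)).1 he.1.2.1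
        refine mem_biUnion (x := e'.2) ?_ ⟨e'.1, (he'.1.1.symm : P.H3.Adj _ _), rfl⟩
        by_cases c : e.1 = e'.2
        · exact Or.inl c.symm
        · exact Or.inr ((hadj _ _).2 ⟨c, Or.inl this⟩)
      refine (ncard_le_ncard hsub).trans (ncard_biUnion_le _ (toFinite _) _ 4 3
        ((ncard_insert_le _ _).trans (by have := hdeg e.1; omega)) fun v _ => ?_)
      exact (ncard_image_le).trans (hdeg v)
  have cnt : ∀ S : Set V, {u | ∃ v, P.H3.Adj u v ∧ SS u v = S}.ncard ≤ M := by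
    intro S
    set E := {e : P.V3 × P.V3 | P.H3.Adj e.1 e.2 ∧ ψ (f e.1) (f e.2) ∧ SS e.1 e.2 = S} with hE
    have hsub : {u | ∃ v, P.H3.Adj u v ∧ SS u v = S} ⊆ Prod.fst '' E ∪ Prod.snd '' E := by
      rintro u ⟨v, h1, h2⟩
      rcases ((hadj u v).1 h1).2 with h | h
      · exact Or.inl ⟨(u, v), ⟨h1, h, h2⟩, rfl⟩
      · exact Or.inr ⟨(v, u), ⟨h1.symm, h, (SSc v u).trans h2⟩, rfl⟩
    have c1 := (ncard_le_ncard hsub).trans (ncard_union_le _ _)
    have c2 : (Prod.fst '' E).ncard ≤ E.ncard := ncard_image_le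
    have c3 : (Prod.snd '' E).ncard ≤ E.ncard := ncard_image_le
    have := cnt1 S
    rw [← hE] at this
    omega
  have hmx : ∀ S : Set V, S.Nonempty → ∃ s ∈ S, ∀ y ∈ S, lam y ≤ lam s := fun S h =>
    exists_max_image S lam (toFinite S) h
  have u0 : P.V3 := ⟨(0, 0), P.mem_V3s.2 ⟨⟨by have := P.w_pos; omega, by have := P.hR; omega⟩,
    dvd_zero _⟩⟩
  have : Nonempty V := ⟨f u0⟩
  choose! mx hmx1 hmx2 using hmx
  have hw : ∀ x y : V, ∃ l : Set V, l.ncard ≤ r + 1 ∧ (y ∈ WR G lam r x → y ∈ l ∧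
      ∀ z ∈ l, y ∈ WR G lam r z ∧ ∃ w : G.Walk x z, ∀ a ∈ w.support, a ∈ l) := by
    intro x y
    by_cases hy : y ∈ WR G lam r x
    · obtain ⟨p, p1, p2⟩ := hy
      refine ⟨p.support.toFinset, ?_, fun _ => ⟨by simp, fun z hz => ?_⟩⟩
      · rw [ncard_coe_finset]
        refine (List.toFinset_card_le _).trans ?_
        rw [SimpleGraph.Walk.length_support]; omega
      · simp only [List.coe_toFinset, mem_setOf_eq] at hz ⊢
        exact ⟨⟨p.dropUntil z hz, (p.length_dropUntil_le_length hz).trans p1, fun a ha =>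
          p2 a (p.support_dropUntil_subset_support hz ha)⟩,
          p.takeUntil z hz, fun x hx => p.support_takeUntil_subset_support hz hx⟩
    · exact ⟨∅, by simp, fun h => absurd h hy⟩
  choose l l1 l2 using hw
  set S : P.V3 → Set V := fun u => {f u} ∪ ⋃ v ∈ P.H3.neighborSet u, l (f u) (mx (SS u v)) with hS
  set Bad := (toFinite {u | ∃ v, P.H3.Adj u v ∧ SS u v = ∅}).toFinset with hBad
  have nb : ∀ u, u ∉ Bad → ∀ v, P.H3.Adj u v → (SS u v).Nonempty := fun u hu v hv => by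
    rw [nonempty_iff_ne_empty]
    exact fun h => hu (by rw [hBad, Finite.mem_toFinset]; exact ⟨v, hv, h⟩)
  have cS : ∀ u, (S u).ncard ≤ 1 + 3 * (r + 1) := fun u =>
    (ncard_union_le _ _).trans (add_le_add (by simp) (ncard_biUnion_le _ (toFinite _) _ _ _
      (hdeg u) fun v _ => l1 _ _))
  have cR : ∀ g : V, {u | u ∉ Bad ∧ g ∈ S u}.ncard ≤ 1 + c * (2 ^ c * M) := fun g => by
    have hsub : {u | u ∉ Bad ∧ g ∈ S u} ⊆ {u | f u = g} ∪ ⋃ s ∈ WR G lam r g,
        ⋃ T ∈ 𝒫 (WR G lam (2 * r) s), {u | ∃ v, P.H3.Adj u v ∧ SS u v = T} := by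
      rintro u ⟨hu, h | h⟩
      · exact Or.inl h.symm
      · obtain ⟨v, hv, h⟩ := mem_iUnion₂.1 h
        have m1 := hmx1 _ (nb u hu v hv)
        refine Or.inr (mem_biUnion ((l2 _ _ m1.1).2 g h).1 (mem_biUnion (x := SS u v)
          (fun y hy => WR_two m1.1 hy.1 (hmx2 _ (nb u hu v hv) y hy)) ⟨v, hv, rfl⟩))
    refine (ncard_le_ncard hsub).trans ((ncard_union_le _ _).trans (add_le_add ?_ ?_))
    · exact (ncard_le_one_iff).2 fun h h' => hf (h.trans h'.symm)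
    · refine ncard_biUnion_le _ (toFinite _) _ _ _ (w1 g) fun s _ =>
        ncard_biUnion_le _ (toFinite _) _ _ _ ?_ fun T _ => cnt T
      rw [ncard_powerset _ (toFinite _)]
      exact Nat.pow_le_pow_right (by norm_num) (w2 s)
  refine hP V G univ (planar_induce hG _) S Bad (fun _ _ => subset_univ _) ?_ ?_ ?_ ?_
  · intro u hu
    refine ⟨f u, Or.inl rfl, ?_⟩
    rintro y (h | h)
    · rw [mem_singleton_iff.1 h]
      exact ⟨SimpleGraph.Walk.nil, fun z hz => Or.inl (by simpa using hz)⟩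
    · obtain ⟨v, hv, h⟩ := mem_iUnion₂.1 h
      obtain ⟨-, w, hw⟩ := (l2 _ _ (hmx1 _ (nb u hu v hv)).1).2 y h
      exact ⟨w, fun z hz => Or.inr (mem_biUnion hv (hw z hz))⟩
  · intro u v hu _ h
    have m1 := hmx1 _ (nb u hu v h)
    refine Set.not_disjoint_iff.2 ⟨mx (SS u v), Or.inr (mem_biUnion h (l2 _ _ m1.1).1),
      Or.inr (mem_biUnion (x := u) (h.symm : P.H3.Adj v u) ?_)⟩
    rw [SSc v u]; exact (l2 _ _ m1.2).1
  · rw [hBad, ← ncard_eq_toFinset_card]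
    exact (cnt ∅).trans (Nat.le_add_right _ _)
  · intro u _
    refine le_trans (ncard_le_ncard (t := ⋃ g ∈ S u, {v | v ∉ Bad ∧ g ∈ S v}) ?_)
      ((ncard_biUnion_le _ (toFinite _) _ _ _ (cS u) fun g _ => cR g).trans (Nat.le_add_left _ _))
    intro v hv
    obtain ⟨g, h1, h2⟩ := Set.not_disjoint_iff.1 hv.2
    exact mem_biUnion h1 ⟨hv.1, h2⟩

end Pool.Agent.H.MP_ec8146_lc
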