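import Mathlib
import Pool.Agent.H.MP_ec8146_lc.Defs

set_option autoImplicit false

namespace Pool.Agent.H.MP_ec8146_lc

namespace Loc

def Near {V : Type} (G : SimpleGraph V) (S : Finset V) (r : ℕ) (u v : V) : Prop :=
  ∃ p : G.Walk u v, p.length ≤ r ∧ ∀ z ∈ p.support, z ∉ S

section
variable {V : Type} {G : SimpleGraph V} {S : Finset V}

theorem Near.symm {r : ℕ} {u v : V} (h : Near G S r u v) : Near G S r v u := by
  obtain ⟨p, h1, h2⟩ := h
  refine ⟨p.reverse, by simpa using h1, fun z hz => h2 z ?_⟩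
  simpa using hz

theorem Near.trans {r t : ℕ} {u v w : V} (h : Near G S r u v) (h' : Near G S t v w) :
    Near G S (r + t) u w := by
  obtain ⟨p, h1, h2⟩ := h
  obtain ⟨q, h3, h4⟩ := h'
  refine ⟨p.append q, by rw [SimpleGraph.Walk.length_append]; omega, fun z hz => ?_⟩
  rcases (SimpleGraph.Walk.mem_support_append_iff p q).1 hz with h | h
  · exact h2 z h
  · exact h4 z h

theorem Near.mono {r t : ℕ} {u v : V} (h : Near G S r u v) (hrt : r ≤ t) : Near G S t u v := by
  obtain ⟨p, h1, h2⟩ := h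
  exact ⟨p, h1.trans hrt, h2⟩

theorem near_adj {u v : V} (h : G.Adj u v) (hu : u ∉ S) (hv : v ∉ S) : Near G S 1 u v := by
  refine ⟨SimpleGraph.Walk.cons h SimpleGraph.Walk.nil, by simp, fun z hz => ?_⟩
  simp only [SimpleGraph.Walk.support_cons, SimpleGraph.Walk.support_nil, List.mem_cons,
    List.not_mem_nil, or_false] at hz
  rcases hz with rfl | rfl <;> assumption

theorem near_eq {u v : V} (h : u = v) (hu : u ∉ S) : Near G S 1 u v := by
  subst h
  refine ⟨SimpleGraph.Walk.nil, by simp, fun z hz => ?_⟩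
  simp only [SimpleGraph.Walk.support_nil, List.mem_cons, List.not_mem_nil, or_false] at hz
  rw [hz]; exact hu

end

def Sep {V : Type} (G : SimpleGraph V) (S : Finset V) (r : ℕ) {n : ℕ} (π : Fin n → ℕ)
    (a : Fin n → V) : Prop :=
  ∀ i j, π i ≠ π j → ¬ Near G S r (a i) (a j)

theorem Sep.anti {V : Type} {G : SimpleGraph V} {S : Finset V} {r t : ℕ} {n : ℕ} {π : Fin n → ℕ}
    {a : Fin n → V} (h : Sep G S t π a) (hrt : r ≤ t) : Sep G S r π a :=
  fun i j hij hn => h i j hij (hn.mono hrt)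

def res {V : Type} {n : ℕ} (π : Fin n → ℕ) (p : ℕ) (a : Fin n → V) : Fin n → Option V :=
  fun i => if π i = p then some (a i) else none

theorem res_some {V : Type} {n : ℕ} {π : Fin n → ℕ} {p : ℕ} {a : Fin n → V} {i : Fin n} {v : V} :
    res π p a i = some v ↔ π i = p ∧ a i = v := by
  unfold res
  by_cases h : π i = p <;> simp [h]

theorem res_cons {V : Type} {n : ℕ} (π : Fin n → ℕ) (p q : ℕ) (z : V) (a : Fin n → V) :
    res (Fin.cons p π : Fin (n + 1) → ℕ) q (Fin.cons z a) =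
      Fin.cons (if p = q then some z else none) (res π q a) := by
  funext i
  refine Fin.cases ?_ (fun j => ?_) i
  · simp [res]
  · simp [res]

/-- The inductive claim for a property `P` of tuples. -/
def Good {V : Type} (G : SimpleGraph V) (S : Finset V) (r : ℕ) {n : ℕ} (T : Type)
    (P : (Fin n → V) → Prop) : Prop :=
  ∃ t : (Fin n → Option V) → T, ∀ (π : Fin n → ℕ) (a b : Fin n → V), Sep G S r π a →
    Sep G S r π b → (∀ p, t (res π p a) = t (res π p b)) → (P a ↔ P b)

theorem good_of_imp {V : Type} {G : SimpleGraph V} {S : Finset V} {r n : ℕ} {T : Type}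
    {P : (Fin n → V) → Prop} (t : (Fin n → Option V) → T)
    (h : ∀ (π : Fin n → ℕ) (a b : Fin n → V), Sep G S r π a →
      Sep G S r π b → (∀ p, t (res π p a) = t (res π p b)) → P a → P b) : Good G S r T P :=
  ⟨t, fun π a b ha hb e => ⟨h π a b ha hb e, h π b a hb ha (fun p => (e p).symm)⟩⟩

theorem enum {V : Type} (S : Finset V) {s : ℕ} (h : S.card ≤ s) :
    ∃ e : Fin s → Option V, ∀ v ∈ S, ∃ m, e m = some v := by
  refine ⟨fun m => if hm : m.val < S.card then some (S.equivFin.symm ⟨m.val, hm⟩).val else none,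
    fun v hv => ⟨⟨(S.equivFin ⟨v, hv⟩).val, lt_of_lt_of_le (S.equivFin ⟨v, hv⟩).isLt h⟩, ?_⟩⟩
  simp

theorem good_rel {V : Type} (G : SimpleGraph V) (S : Finset V) {s : ℕ} (hs : S.card ≤ s) {n : ℕ}
    (R : V → V → Prop) (hR : ∀ v w, R v w → v ∉ S → w ∉ S → Near G S 1 v w) (i j : Fin n) :
    Good G S 1 (Prop × (Fin n → Fin s → Prop) × (Fin n → Fin s → Prop) × (Fin n → Fin s → Prop))
      (fun a : Fin n → V => R (a i) (a j)) := by
  obtain ⟨e, he⟩ := enum S hs
  refine good_of_imp (fun x => (∃ v w, x i = some v ∧ x j = some w ∧ R v w,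
    fun k m => ∃ v, x k = some v ∧ e m = some v,
    fun k m => ∃ v w, x k = some v ∧ e m = some w ∧ R v w,
    fun k m => ∃ v w, x k = some v ∧ e m = some w ∧ R w v)) ?_
  intro π a b ha _ ht hP
  have same : ∀ k m, e m = some (a k) → e m = some (b k) := by
    intro k m hm
    have h := congrFun (congrFun (congrArg (fun y => y.2.1) (ht (π k))) k) m
    obtain ⟨v, h1, h2⟩ := (Eq.to_iff h).1 ⟨a k, res_some.2 ⟨rfl, rfl⟩, hm⟩
    rw [(res_some.1 h1).2]; exact h2
  by_cases hij : π i = π j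
  · have h := congrArg (fun y => y.1) (ht (π i))
    obtain ⟨v, w, h1, h2, h3⟩ := (Eq.to_iff h).1
      ⟨a i, a j, res_some.2 ⟨rfl, rfl⟩, res_some.2 ⟨hij.symm, rfl⟩, hP⟩
    rw [(res_some.1 h1).2, (res_some.1 h2).2]; exact h3
  · by_cases hi : a i ∈ S
    · obtain ⟨m, hm⟩ := he _ hi
      have h := congrFun (congrFun (congrArg (fun y => y.2.2.2) (ht (π j))) j) m
      obtain ⟨v, w, h1, h2, h3⟩ := (Eq.to_iff h).1 ⟨a j, a i, res_some.2 ⟨rfl, rfl⟩, hm, hP⟩
      have := (same i m hm).symm.trans h2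
      rw [(res_some.1 h1).2, Option.some.inj this]; exact h3
    · by_cases hj : a j ∈ S
      · obtain ⟨m, hm⟩ := he _ hj
        have h := congrFun (congrFun (congrArg (fun y => y.2.2.1) (ht (π i))) i) m
        obtain ⟨v, w, h1, h2, h3⟩ := (Eq.to_iff h).1 ⟨a i, a j, res_some.2 ⟨rfl, rfl⟩, hm, hP⟩
        have := (same j m hm).symm.trans h2
        rw [(res_some.1 h1).2, Option.some.inj this]; exact h3
      · exact absurd (hR _ _ hP hi hj) (ha i j hij)

theorem good_un {V : Type} (G : SimpleGraph V) (S : Finset V) {n : ℕ} (A : Set V) (i : Fin n) :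
    Good G S 0 Prop (fun a : Fin n → V => a i ∈ A) := by
  refine good_of_imp (fun x => ∃ v, x i = some v ∧ v ∈ A) ?_
  intro π a b _ _ ht hP
  obtain ⟨v, h1, h2⟩ := (Eq.to_iff (ht (π i))).1 ⟨a i, res_some.2 ⟨rfl, rfl⟩, hP⟩
  rw [(res_some.1 h1).2]; exact h2

theorem good_ex {V : Type} {G : SimpleGraph V} {S : Finset V} {r n : ℕ} {T : Type}
    {P : (Fin (n + 1) → V) → Prop} (h : Good G S r T P) :
    Good G S (4 * r) ((T → Prop) × T × (T → Fin n → Fin n → Prop))
      (fun a : Fin n → V => ∃ z : V, P (Fin.cons z a)) := by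
  obtain ⟨t, ht⟩ := h
  have hanc : ∀ τ : T, ∃ c : Fin n → Option V, ∀ b : Fin n → V,
      (∀ z, t (Fin.cons (some z) (fun _ => none)) = τ → ∃ k, Near G S r (b k) z) →
      ∀ z, t (Fin.cons (some z) (fun _ => none)) = τ → ∃ k v, c k = some v ∧ Near G S r v z := by
    intro τ
    by_cases hb : ∃ b : Fin n → V,
        ∀ z, t (Fin.cons (some z) (fun _ => none)) = τ → ∃ k, Near G S r (b k) z
    · obtain ⟨b, hb⟩ := hb
      refine ⟨fun k => some (b k), fun _ _ z hz => ?_⟩
      obtain ⟨k, hk⟩ := hb z hz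
      exact ⟨k, b k, rfl, hk⟩
    · exact ⟨fun _ => none, fun b h => absurd ⟨b, h⟩ hb⟩
  choose anc hanc using hanc
  refine good_of_imp (fun x =>
    (fun τ => ∃ z i v, x i = some v ∧ Near G S (3 * r) v z ∧ τ = t (Fin.cons (some z) x),
    t (Fin.cons none x),
    fun τ k i => ∃ v w, x i = some v ∧ anc τ k = some w ∧ Near G S (2 * r) v w)) ?_
  rintro π a b ha hb he ⟨z, hz⟩
  have sep : ∀ (x : Fin n → V) (y : V) (p : ℕ), Sep G S (4 * r) π x →
      (∀ j, π j ≠ p → ¬ Near G S r (x j) y) →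
      Sep G S r (Fin.cons p π : Fin (n + 1) → ℕ) (Fin.cons y x) := by
    intro x y p hx hy i j
    refine Fin.cases ?_ (fun i' => ?_) i <;> refine Fin.cases ?_ (fun j' => ?_) j
    · intro h; exact absurd rfl h
    · simp only [Fin.cons_zero, Fin.cons_succ]
      exact fun h hn => hy j' (fun e => h e.symm) hn.symm
    · simp only [Fin.cons_zero, Fin.cons_succ]
      exact fun h => hy i' h
    · simp only [Fin.cons_succ]
      exact fun h => hx.anti (by omega) i' j' h
  have step : ∀ (z' : V) (p : ℕ), (∀ j, π j ≠ p → ¬ Near G S r (a j) z) →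
      (∀ j, π j ≠ p → ¬ Near G S r (b j) z') →
      t (Fin.cons (some z) (res π p a)) = t (Fin.cons (some z') (res π p b)) →
      P (Fin.cons z' b) := by
    intro z' p h1 h2 h3
    refine (ht (Fin.cons p π) _ _ (sep a z p ha h1) (sep b z' p hb h2) (fun q => ?_)).1 hz
    rw [res_cons, res_cons]
    by_cases hq : p = q
    · subst hq
      simpa using h3
    · simp only [hq, if_false]
      exact congrArg (fun y => y.2.1) (he q)
  have far : ∀ (x : Fin n → V) (y : V) (i : Fin n), Sep G S (4 * r) π x →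
      Near G S (3 * r) (x i) y → ∀ j, π j ≠ π i → ¬ Near G S r (x j) y := by
    intro x y i hx hy j hj hn
    exact hx j i hj ((hn.trans hy.symm).mono (by omega))
  by_cases hn : ∃ i, Near G S (3 * r) (a i) z
  · obtain ⟨i, hi⟩ := hn
    have h := congrFun (congrArg (fun y => y.1) (he (π i))) (t (Fin.cons (some z) (res π (π i) a)))
    obtain ⟨z', i', v, h1, h2, h3⟩ := (Eq.to_iff h).1 ⟨z, i, a i, res_some.2 ⟨rfl, rfl⟩, hi, rfl⟩
    obtain ⟨h4, rfl⟩ := res_some.1 h1
    refine ⟨z', step z' (π i) (far a z i ha hi) ?_ h3⟩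
    rw [← h4]
    exact far b z' i' hb h2
  · obtain ⟨p, hp⟩ := Infinite.exists_notMem_finset (Finset.univ.image π)
    have hres : ∀ x : Fin n → V, res π p x = fun _ => none := by
      intro x
      funext i
      have : π i ≠ p := fun e => hp (Finset.mem_image.2 ⟨i, Finset.mem_univ _, e⟩)
      simp [res, this]
    have hz' : ∃ z', t (Fin.cons (some z') (fun _ => none)) = t (Fin.cons (some z) (fun _ => none)) ∧
        ∀ k, ¬ Near G S r (b k) z' := by
      by_contra hc
      have hcov : ∀ z', t (Fin.cons (some z') (fun _ => none)) =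
          t (Fin.cons (some z) (fun _ => none)) → ∃ k, Near G S r (b k) z' := by
        intro z' e
        by_contra h
        exact hc ⟨z', e, fun k hk => h ⟨k, hk⟩⟩
      obtain ⟨k, w, hw, hwz⟩ := hanc _ b hcov z rfl
      obtain ⟨i, hi⟩ := hcov z rfl
      have h := congrFun (congrFun (congrFun (congrArg (fun y => y.2.2) (he (π i)))
        (t (Fin.cons (some z) (fun _ => none)))) k) i
      obtain ⟨v, w', h1, h2, h3⟩ := (Eq.to_iff h).2
        ⟨b i, w, res_some.2 ⟨rfl, rfl⟩, hw, (hi.trans hwz.symm).mono (by omega)⟩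
      obtain ⟨-, rfl⟩ := res_some.1 h1
      have := Option.some.inj (hw.symm.trans h2)
      subst this
      exact hn ⟨i, (h3.trans hwz).mono (by omega)⟩
    obtain ⟨z', h1, h2⟩ := hz'
    refine ⟨z', step z' p (fun j _ h => hn ⟨j, h.mono (by omega)⟩) (fun j _ => h2 j) ?_⟩
    rw [hres, hres, h1]

theorem claim {c : ℕ} {n : ℕ} (φ : Fml c n) : ∃ r : ℕ, ∀ s : ℕ, ∃ T : Type, Finite T ∧
    ∀ (V : Type) (G : SimpleGraph V) (C : Fin c → Set V) (S : Finset V), S.card ≤ s →
      Good G S r T (fun a => φ.Sat G C a) := by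
  induction φ with
  | adj i j =>
    exact ⟨1, fun s => ⟨_, inferInstance, fun V G C S hs =>
      good_rel G S hs G.Adj (fun _ _ h => near_adj h) i j⟩⟩
  | eq i j =>
    exact ⟨1, fun s => ⟨_, inferInstance, fun V G C S hs =>
      good_rel G S hs Eq (fun _ _ h hv _ => near_eq h hv) i j⟩⟩
  | col k i => exact ⟨0, fun s => ⟨_, inferInstance, fun V G C S _ => good_un G S (C k) i⟩⟩
  | neg φ ih =>
    obtain ⟨r, hr⟩ := ih
    refine ⟨r, fun s => ?_⟩
    obtain ⟨T, hT, h⟩ := hr s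
    refine ⟨T, hT, fun V G C S hs => ?_⟩
    obtain ⟨t, ht⟩ := h V G C S hs
    exact ⟨t, fun π a b ha hb e => not_congr (ht π a b ha hb e)⟩
  | and φ ψ ih1 ih2 =>
    obtain ⟨r1, hr1⟩ := ih1
    obtain ⟨r2, hr2⟩ := ih2
    refine ⟨max r1 r2, fun s => ?_⟩
    obtain ⟨T1, hT1, h1⟩ := hr1 s
    obtain ⟨T2, hT2, h2⟩ := hr2 s
    refine ⟨T1 × T2, inferInstance, fun V G C S hs => ?_⟩
    obtain ⟨t1, ht1⟩ := h1 V G C S hs
    obtain ⟨t2, ht2⟩ := h2 V G C S hs
    exact ⟨fun x => (t1 x, t2 x), fun π a b ha hb e => and_congr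
      (ht1 π a b (ha.anti (le_max_left _ _)) (hb.anti (le_max_left _ _))
        (fun p => congrArg Prod.fst (e p)))
      (ht2 π a b (ha.anti (le_max_right _ _)) (hb.anti (le_max_right _ _))
        (fun p => congrArg Prod.snd (e p)))⟩
  | ex φ ih =>
    obtain ⟨r, hr⟩ := ih
    refine ⟨4 * r, fun s => ?_⟩
    obtain ⟨T, hT, h⟩ := hr s
    exact ⟨_, inferInstance, fun V G C S hs => good_ex (h V G C S hs)⟩

end Loc

theorem locality (c : ℕ) (ψ : Fml c 2) : ∃ r : ℕ, ∀ s : ℕ, ∃ N : ℕ, ∀ (V : Type)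
    (G : SimpleGraph V) (C : Fin c → Set V) (S : Finset V), S.card ≤ s → ∃ tp : V → Fin N,
      ∀ u v u1 v1 : V, Far G S r u v → Far G S r u1 v1 → tp u = tp u1 → tp v = tp v1 →
        (ψ.Sat G C ![u, v] ↔ ψ.Sat G C ![u1, v1]) := by
  obtain ⟨r, hr⟩ := Loc.claim ψ
  refine ⟨r, fun s => ?_⟩
  obtain ⟨T, hT, h⟩ := hr s
  obtain ⟨N, ⟨e⟩⟩ := Finite.exists_equiv_fin (T × T)
  refine ⟨N, fun V G C S hs => ?_⟩
  obtain ⟨t, ht⟩ := h V G C S hs
  refine ⟨fun u => e (t ![some u, none], t ![none, some u]), fun u v u1 v1 h1 h2 h3 h4 => ?_⟩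
  have sep : ∀ x y : V, Far G S r x y → Loc.Sep G S r (fun i : Fin 2 => i.val) ![x, y] := by
    intro x y hxy i j hij
    fin_cases i <;> fin_cases j
    · exact absurd rfl hij
    · exact hxy
    · exact fun hn => hxy (Loc.Near.symm hn)
    · exact absurd rfl hij
  have r0 : ∀ x y : V, Loc.res (fun i : Fin 2 => i.val) 0 ![x, y] = ![some x, none] := by
    intro x y; funext i; fin_cases i <;> simp [Loc.res]
  have r1 : ∀ x y : V, Loc.res (fun i : Fin 2 => i.val) 1 ![x, y] = ![none, some y] := by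
    intro x y; funext i; fin_cases i <;> simp [Loc.res]
  have r2 : ∀ (x y : V) (p : ℕ), Loc.res (fun i : Fin 2 => i.val) (p + 2) ![x, y] = ![none, none] := by
    intro x y p; funext i; fin_cases i <;> simp [Loc.res]
  refine ht _ _ _ (sep u v h1) (sep u1 v1 h2) (fun p => ?_)
  match p with
  | 0 => rw [r0, r0]; exact congrArg Prod.fst (e.injective h3)
  | 1 => rw [r1, r1]; exact congrArg Prod.snd (e.injective h4)
  | p + 2 => rw [r2, r2]

end Pool.Agent.H.MP_ec8146_lc
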